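import Pool.Agent.H.MP_6503f0_an.Defs

set_option autoImplicit false
set_option maxSynthPendingDepth 3

namespace Pool.Agent.H.MP_6503f0_an

open Filter Topology

variable {A : Type} [NormedAddCommGroup A] [NormedSpace ℂ A] {m : A →L[ℂ] A →L[ℂ] A} {s : A → A}

/-- unfolded form -/
structure JB (m : A →L[ℂ] A →L[ℂ] A) (s : A → A) : Prop where
  comm : ∀ a b, m a b = m b a
  jordan : ∀ a b, m (m a b) (m a a) = m a (m b (m a a))
  norm_le : ∀ a b, ‖m a b‖ ≤ ‖a‖ * ‖b‖
  s_add : ∀ a b, s (a + b) = s a + s b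
  s_smul : ∀ (c : ℂ) (a : A), s (c • a) = starRingEnd ℂ c • s a
  s_s : ∀ a, s (s a) = a
  s_mul : ∀ a b, s (m a b) = m (s a) (s b)
  cstar : ∀ a, ‖(2 : ℂ) • m (m a (s a)) a - m (m a a) (s a)‖ = ‖a‖ ^ 3

theorem IsJB.jb (h : IsJB (pr m) s) : JB m s :=
  ⟨h.comm, h.jordan, h.norm_le, h.s_add, h.s_smul, h.s_s, h.s_mul, h.cstar⟩

theorem JB.lin (h : JB m s) (a b c y : A) :
    m (m a y) (m b c) + m (m b y) (m a c) + m (m c y) (m a b) =
      m a (m y (m b c)) + m b (m y (m a c)) + m c (m y (m a b)) := by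
  have h1 := h.jordan (a + b + c) y
  have h2 := h.jordan (a + b) y
  have h3 := h.jordan (b + c) y
  have h4 := h.jordan (a + c) y
  have h5 := h.jordan a y
  have h6 := h.jordan b y
  have h7 := h.jordan c y
  simp only [map_add, _root_.add_apply, h.comm b a, h.comm c a, h.comm c b] at h1 h2 h3 h4
  linear_combination (norm := module) (2⁻¹ : ℂ) • (h1 - h2 - h3 - h4 + h5 + h6 + h7)

theorem fact0 {C : Type} [NormedAddCommGroup C] [NormedSpace ℂ C] [CompleteSpace C]
    (μ : C →ₗ[ℂ] C →ₗ[ℂ] C) (σ : C → C) (h1 : ∀ a b c, μ (μ a b) c = μ a (μ b c))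
    (h2 : ∀ a b, ‖μ a b‖ ≤ ‖a‖ * ‖b‖) (h3 : ∀ a b, σ (a + b) = σ a + σ b)
    (h4 : ∀ (c : ℂ) a, σ (c • a) = star c • σ a) (h5 : ∀ a, σ (σ a) = a)
    (h6 : ∀ a b, σ (μ a b) = μ (σ b) (σ a)) (h7 : ∀ a, ‖a‖ * ‖a‖ ≤ ‖μ (σ a) a‖) {x : C}
    (hx : σ x = x) : ∃ b c, x = μ b b - μ c c := by
  let _ : NonUnitalCStarAlgebra C :=
    { (inferInstance : NormedAddCommGroup C), (inferInstance : NormedSpace ℂ C),
      (inferInstance : CompleteSpace C) with
      mul := fun a b => μ a b
      left_distrib := fun a b c => map_add (μ a) b c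
      right_distrib := fun a b c => LinearMap.map_add₂ μ a b c
      zero_mul := fun a => LinearMap.map_zero₂ μ a
      mul_zero := fun a => map_zero (μ a)
      mul_assoc := h1
      norm_mul_le := h2
      star := σ
      star_involutive := h5
      star_mul := h6
      star_add := h3
      norm_mul_self_le := h7
      smul_assoc := fun c a b => LinearMap.map_smul₂ μ c a b
      smul_comm := fun c a b => (map_smul (μ a) c b).symm
      star_smul := h4 }
  let _ := CStarAlgebra.spectralOrder C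
  have := CStarAlgebra.spectralOrderedRing C
  refine ⟨CFC.sqrt x⁺, CFC.sqrt x⁻, ?_⟩
  change x = CFC.sqrt x⁺ * CFC.sqrt x⁺ - CFC.sqrt x⁻ * CFC.sqrt x⁻
  rw [CFC.sqrt_mul_sqrt_self _ (CFC.posPart_nonneg x), CFC.sqrt_mul_sqrt_self _ (CFC.negPart_nonneg x),
    CFC.posPart_sub_negPart x hx]

/-- powers -/
noncomputable def pw (m : A →L[ℂ] A →L[ℂ] A) (x : A) : ℕ → A
  | 0 => x
  | n + 1 => m x (pw m x n)

theorem JB.pw_comm (h : JB m s) (x : A) (n : ℕ) : Commute (m (pw m x n)) (m x) := by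
  have h2 : Commute (m (m x x)) (m x) := by
    ext y
    rw [mul_apply_eq_comp, mul_apply_eq_comp, h.comm (m x x), h.jordan, h.comm y]
  induction n using Nat.twoStepInduction with
  | zero => exact Commute.refl _
  | one => exact h2
  | more n i1 i2 =>
    have : m (pw m x (n + 2)) = m (m x x) * m (pw m x n) + m (pw m x (n + 1)) * m x +
        m (pw m x (n + 1)) * m x - m x * m x * m (pw m x n) - m (pw m x n) * m x * m x := by
      ext y
      have := h.lin y x (pw m x n) x
      simp only [_root_.add_apply, _root_.sub_apply, mul_apply_eq_comp, pw]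
      rw [h.comm y x, h.comm y (pw m x n), h.comm (pw m x n) x, h.comm (m x y), h.comm y] at this
      linear_combination (norm := module) -this
    rw [this]
    have r := Commute.refl (m x)
    exact ((((h2.mul_left i1).add_left (i2.mul_left r)).add_left (i2.mul_left r)).sub_left
      ((r.mul_left r).mul_left i1)).sub_left ((i1.mul_left r).mul_left r)

theorem JB.pw_mul (h : JB m s) (x : A) (i j : ℕ) :
    m (pw m x i) (pw m x j) = pw m x (i + j + 1) := by
  induction j with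
  | zero => exact h.comm _ _
  | succ j ih =>
    rw [pw, ← mul_apply_eq_comp, (h.pw_comm x i).eq, mul_apply_eq_comp, ih]
    rfl

theorem JB.s_cont (h : JB m s) : Continuous s := by
  let S : A →+ A := AddMonoidHom.mk' s h.s_add
  refine AddMonoidHomClass.continuous_of_bound S 3 fun a => ?_
  change ‖s a‖ ≤ _
  have h1 := h.cstar (s a)
  rw [h.s_s] at h1
  have h2 := norm_sub_le ((2 : ℂ) • m (m (s a) a) (s a)) (m (m (s a) (s a)) a)
  rw [h1, norm_smul, Complex.norm_two] at h2
  have a1 := (h.norm_le _ _).trans (mul_le_mul_of_nonneg_right (h.norm_le (s a) a) (norm_nonneg (s a)))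
  have a2 := (h.norm_le _ _).trans (mul_le_mul_of_nonneg_right (h.norm_le (s a) (s a)) (norm_nonneg a))
  rcases (norm_nonneg (s a)).eq_or_lt with e | e
  · rw [← e]
    positivity
  · refine le_of_mul_le_mul_right ?_ (mul_pos e e)
    nlinarith

theorem JB.fact1 [CompleteSpace A] (h : JB m s) {x : A} (hx : s x = x) :
    ∃ b c, x = m b b - m c c := by
  let D := Submodule.span ℂ (Set.range (pw m x))
  let C := D.topologicalClosure
  have ind : ∀ {P : A → Prop}, IsClosed {a | P a} → P 0 → (∀ a b, P a → P b → P (a + b)) →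
      (∀ (c : ℂ) a, P a → P (c • a)) → (∀ n, P (pw m x n)) → ∀ a ∈ C, P a := by
    intro P h0 h1 h2 h3 h4 a ha
    refine closure_minimal (t := {a | P a}) (fun b hb => ?_) h0 ha
    induction hb using Submodule.span_induction with
    | mem _ hb =>
      obtain ⟨n, rfl⟩ := hb
      exact h4 n
    | zero => exact h1
    | add a b _ _ i1 i2 => exact h2 a b i1 i2
    | smul c a _ i1 => exact h3 c a i1
  have hC : IsClosed (C : Set A) := D.isClosed_topologicalClosure
  have hp : ∀ n, pw m x n ∈ C := fun n => subset_closure (Submodule.subset_span ⟨n, rfl⟩)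
  have hm : ∀ a ∈ C, ∀ b ∈ C, m a b ∈ C := by
    intro a ha b hb
    refine ind (P := fun a => m a b ∈ C) (hC.preimage (m.flip b).continuous) (by simp)
      (fun _ _ i j => by simpa using add_mem i j) (fun c _ i => by simpa using C.smul_mem c i)
      (fun n => ?_) a ha
    exact ind (P := fun b => m (pw m x n) b ∈ C) (hC.preimage (m _).continuous) (by simp)
      (fun _ _ i j => by simpa using add_mem i j) (fun c _ i => by simpa using C.smul_mem c i)
      (fun k => h.pw_mul x n k ▸ hp _) b hb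
  have s0 : s 0 = 0 := by simpa using h.s_smul 0 0
  have hs : ∀ a ∈ C, s a ∈ C := by
    refine ind (hC.preimage h.s_cont) (by rw [s0]; exact zero_mem C) (fun _ _ i j => h.s_add _ _ ▸ add_mem i j)
      (fun c _ i => h.s_smul _ _ ▸ C.smul_mem _ i) fun n => ?_
    have : s (pw m x n) = pw m x n := by
      induction n with
      | zero => exact hx
      | succ n ih => rw [pw, h.s_mul, hx, ih]
    exact this.symm ▸ hp n
  have ha : ∀ a ∈ C, ∀ b ∈ C, ∀ c ∈ C, m (m a b) c = m a (m b c) := by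
    intro a ha b hb c hc
    refine ind (P := fun a => m (m a b) c = m a (m b c)) (isClosed_eq (by fun_prop) (by fun_prop))
      (by simp) (fun _ _ i j => by simp [i, j]) (fun c _ i => by simp [i]) (fun i => ?_) a ha
    refine ind (P := fun b => m (m (pw m x i) b) c = m (pw m x i) (m b c))
      (isClosed_eq (by fun_prop) (by fun_prop))
      (by simp) (fun _ _ i j => by simp [i, j]) (fun c _ i => by simp [i]) (fun j => ?_) b hb
    refine ind (P := fun c => m (m (pw m x i) (pw m x j)) c = m (pw m x i) (m (pw m x j) c))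
      (isClosed_eq (by fun_prop) (by fun_prop))
      (by simp) (fun _ _ i j => by simp [i, j]) (fun c _ i => by simp [i]) (fun k => ?_) c hc
    simp only [h.pw_mul]
    congr 1
    ring
  have hn : ∀ a ∈ C, ‖a‖ * ‖a‖ ≤ ‖m (s a) a‖ := by
    intro a ha'
    have h1 := h.cstar a
    rw [ha _ ha' _ ha' _ (hs _ ha'), h.comm (m a (s a)), two_smul, add_sub_cancel_right,
      h.comm a (s a)] at h1
    have h2 := h.norm_le a (m (s a) a)
    rcases (norm_nonneg a).eq_or_lt with e | e
    · rw [← e]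
      simp
    · refine le_of_mul_le_mul_left ?_ e
      nlinarith
  have := hC.completeSpace_coe
  obtain ⟨b, c, e⟩ := fact0 (C := C) (LinearMap.mk₂ ℂ (fun a b => ⟨m a b, hm _ a.2 _ b.2⟩)
    (fun _ _ _ => Subtype.ext (by simp)) (fun _ _ _ => Subtype.ext (by simp))
    (fun _ _ _ => Subtype.ext (by simp)) (fun _ _ _ => Subtype.ext (by simp)))
    (fun a => ⟨s a, hs _ a.2⟩) (fun a b c => Subtype.ext (ha _ a.2 _ b.2 _ c.2))
    (fun a b => h.norm_le a b) (fun a b => Subtype.ext (h.s_add a b))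
    (fun c a => Subtype.ext (h.s_smul c a)) (fun a => Subtype.ext (h.s_s a))
    (fun a b => Subtype.ext ((h.s_mul a b).trans (h.comm _ _))) (fun a => hn a a.2) (x := ⟨x, hp 0⟩)
    (Subtype.ext hx)
  exact ⟨b, c, congrArg Subtype.val e⟩

theorem JB.ind [CompleteSpace A] (h : JB m s) {P : A → Prop} (h2 : ∀ a b, P a → P b → P (a + b))
    (h3 : ∀ (c : ℂ) a, P a → P (c • a)) (h4 : ∀ a b, P (m a b)) (a : A) : P a := by
  have key : ∀ x, s x = x → P x := by
    intro x hx
    obtain ⟨b, c, rfl⟩ := h.fact1 hx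
    simpa [sub_eq_add_neg] using h2 _ _ (h4 b b) (h3 (-1) _ (h4 c c))
  have e : a = (2⁻¹ : ℂ) • (a + s a) + (-(2⁻¹ * Complex.I)) • (Complex.I • a + s (Complex.I • a)) := by
    rw [h.s_smul, Complex.conj_I]
    have := Complex.I_mul_I
    match_scalars
    · linear_combination (2⁻¹ : ℂ) * this
    · linear_combination (-2⁻¹ : ℂ) * this
  rw [e]
  exact h2 _ _ (h3 _ _ (key _ (by rw [h.s_add, h.s_s, add_comm])))
    (h3 _ _ (key _ (by rw [h.s_add, h.s_s, add_comm])))

theorem Q_apply (y : Bi A) (f : StrongDual ℂ A) (a : A) : Q m y f a = y (f.comp (m a)) := rfl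

theorem ar_apply (x y : Bi A) (f : StrongDual ℂ A) : ar m x y f = x (Q m y f) := rfl

theorem J_apply (a : A) (f : StrongDual ℂ A) : J a f = f a := rfl

/-- the Arens product as a bounded bilinear map -/
noncomputable def arL (m : A →L[ℂ] A →L[ℂ] A) : Bi A →L[ℂ] Bi A →L[ℂ] Bi A :=
  (((ContinuousLinearMap.compL ℂ (StrongDual ℂ A) (StrongDual ℂ A) ℂ).flip).comp
    (((ContinuousLinearMap.compL ℂ (StrongDual ℂ A) (A →L[ℂ] StrongDual ℂ A)
      (StrongDual ℂ A)).flip (((ContinuousLinearMap.compL ℂ A (A →L[ℂ] A)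
        (StrongDual ℂ A)).flip m).comp (ContinuousLinearMap.compL ℂ A A ℂ))).comp
      (ContinuousLinearMap.compL ℂ A (StrongDual ℂ A) ℂ))).flip

theorem arL_eq (x y : Bi A) : ar m x y = arL m x y := rfl

theorem JB.ar_comm (h : JB m s) (a : A) (x : Bi A) : ar m x (J a) = ar m (J a) x := by
  ext f
  rw [ar_apply, ar_apply, J_apply, Q_apply]
  congr 1
  ext b
  rw [Q_apply, J_apply]
  exact congrArg f (h.comm b a)

theorem JB.key (h : JB m s) (a b : A) (x y : Bi A) : ar m (J (m a b)) (ar m x y) =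
    ar m (J a) (ar m (ar m (J b) x) y) + ar m (J b) (ar m (ar m (J a) x) y) +
      ar m x (ar m (J (m a b)) y) - ar m (ar m (J b) x) (ar m (J a) y) -
        ar m (ar m (J a) x) (ar m (J b) y) := by
  ext f
  simp only [_root_.add_apply, _root_.sub_apply, ar_apply, J_apply, Q_apply, ← map_add, ← map_sub]
  congr 1
  ext u
  simp only [_root_.add_apply, _root_.sub_apply, ar_apply, J_apply, Q_apply, ← map_add, ← map_sub,
    ContinuousLinearMap.comp_apply]
  congr 1
  ext v
  simp only [_root_.add_apply, _root_.sub_apply, ← map_add, ← map_sub,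
    ContinuousLinearMap.comp_apply]
  congr 1
  have := h.lin a b u v
  rw [h.comm (m a v), h.comm (m b v), h.comm (m u v), h.comm v, h.comm v, h.comm v] at this
  linear_combination (norm := module) this

theorem J_add (a b : A) : J (a + b) = J a + J b :=
  map_add (NormedSpace.inclusionInDoubleDual ℂ A) _ _

theorem J_smul (c : ℂ) (a : A) : J (c • a) = c • J a :=
  map_smul (NormedSpace.inclusionInDoubleDual ℂ A) _ _

theorem J_sub (a b : A) : J (a - b) = J a - J b :=
  map_sub (NormedSpace.inclusionInDoubleDual ℂ A) _ _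

theorem ar_JJ (a b : A) : ar m (J a) (J b) = J (m a b) := rfl

theorem JB.mem [CompleteSpace A] (h : JB m s) {x y : Bi A} (hx : x ∈ Mult m)
    (hy : y ∈ Mult m) : ar m x y ∈ Mult m := by
  refine h.ind ?_ ?_ fun a b => ?_
  · rintro a b ⟨c, hc⟩ ⟨d, hd⟩
    exact ⟨c + d, by rw [J_add, J_add, ← hc, ← hd]; simp only [arL_eq, map_add, _root_.add_apply]⟩
  · rintro c a ⟨d, hd⟩
    exact ⟨c • d, by rw [J_smul, J_smul, ← hd]; simp only [arL_eq, map_smul, _root_.smul_apply]⟩
  · obtain ⟨a1, h1⟩ := hx a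
    obtain ⟨b1, h2⟩ := hx b
    obtain ⟨a2, h3⟩ := hy a
    obtain ⟨b2, h4⟩ := hy b
    obtain ⟨a3, h5⟩ := hy a1
    obtain ⟨b3, h6⟩ := hy b1
    obtain ⟨c, h7⟩ := hy (m a b)
    obtain ⟨d, h8⟩ := hx c
    rw [h.key, h1, h2, h3, h4, h5, h6, h7, h.ar_comm c, h8]
    simp only [ar_JJ, ← J_add, ← J_sub]
    exact ⟨_, rfl⟩

theorem tend_iff {ι : Type} {l : Filter ι} {x : ι → Bi A} {y : Bi A} :
    Tendsto x l (@nhds _ (js m) y) ↔ ∀ a, Tendsto (fun i => ar m (J a) (x i)) l (𝓝 (ar m (J a) y)) := by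
  simp only [nhds_iInf, nhds_induced, tendsto_iInf, tendsto_comap_iff]
  rfl

theorem JB.red [CompleteSpace A] (h : JB m s) {ι : Type} {l : Filter ι} {x : ι → Bi A}
    {y : Bi A} (H : ∀ a b, Tendsto (fun i => ar m (J (m a b)) (x i)) l (𝓝 (ar m (J (m a b)) y))) :
    Tendsto x l (@nhds _ (js m) y) := by
  refine tend_iff.2 (h.ind (fun a b i j => ?_) (fun c a i => ?_) H)
  · simpa only [J_add, arL_eq, map_add, _root_.add_apply] using i.add j
  · simpa only [J_smul, arL_eq, map_smul, _root_.smul_apply] using i.const_smul c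

theorem tA {ι : Type} {l : Filter ι} {x y : ι → Bi A} {x0 y0 : Bi A} (hx : Tendsto x l (𝓝 x0))
    (hy : Tendsto y l (𝓝 y0)) : Tendsto (fun i => ar m (x i) (y i)) l (𝓝 (ar m x0 y0)) :=
  ((arL m).continuous₂.tendsto (x0, y0)).comp (hx.prodMk_nhds hy)

theorem JB.sepR [CompleteSpace A] (h : JB m s) {ι : Type} {l : Filter ι} {y : ι → Bi A}
    {x y0 : Bi A} (hx : x ∈ Mult m) (hy : Tendsto y l (@nhds _ (js m) y0)) :
    Tendsto (fun i => ar m x (y i)) l (@nhds _ (js m) (ar m x y0)) := by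
  refine h.red fun a b => ?_
  have t := tend_iff.1 hy
  obtain ⟨a1, h1⟩ := hx a
  obtain ⟨b1, h2⟩ := hx b
  simp only [h.key a b x, h1, h2]
  have c : ∀ z : Bi A, Tendsto (fun _ : ι => z) l (𝓝 z) := fun _ => tendsto_const_nhds
  exact ((((tA (c _) (t _)).add (tA (c _) (t _))).add (tA (c _) (t _))).sub
    (tA (c _) (t _))).sub (tA (c _) (t _))

theorem JB.sepL [CompleteSpace A] (h : JB m s) {ι : Type} {l : Filter ι} {y : ι → Bi A}
    {x y0 : Bi A} (hx : x ∈ Mult m) (hy : Tendsto y l (@nhds _ (js m) y0)) :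
    Tendsto (fun i => ar m (y i) x) l (@nhds _ (js m) (ar m y0 x)) := by
  refine h.red fun a b => ?_
  have t := tend_iff.1 hy
  obtain ⟨d, h1⟩ := hx (m a b)
  simp only [h.key a b _ x, h1, h.ar_comm d]
  have c : ∀ z : Bi A, Tendsto (fun _ : ι => z) l (𝓝 z) := fun _ => tendsto_const_nhds
  exact ((((tA (c _) (tA (t _) (c _))).add (tA (c _) (tA (t _) (c _)))).add (t _)).sub
    (tA (t _) (c _))).sub (tA (t _) (c _))

theorem tB {ι : Type} {l : Filter ι} (B : Bi A →L[ℂ] Bi A →L[ℂ] Bi A) {x y : ι → Bi A}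
    {x0 z : Bi A} {r : ℝ} (hx : Tendsto x l (𝓝 x0)) (hy : ∀ᶠ i in l, ‖y i‖ ≤ r)
    (h0 : Tendsto (fun i => B x0 (y i)) l (𝓝 z)) : Tendsto (fun i => B (x i) (y i)) l (𝓝 z) := by
  have h1 : Tendsto (fun i => B (x i - x0) (y i)) l (𝓝 0) := by
    refine squeeze_zero_norm' (a := fun i => ‖B‖ * ‖x i - x0‖ * r)
      (hy.mono fun i hi => (B.le_opNorm₂ _ _).trans (by gcongr)) ?_
    simpa using ((tendsto_iff_norm_sub_tendsto_zero.1 hx).const_mul ‖B‖).mul_const r
  simpa using h1.add h0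

theorem JB.joint [CompleteSpace A] (h : JB m s) {ι : Type} {l : Filter ι} {x y : ι → Bi A}
    {x0 y0 : Bi A} {r : ℝ} (h1 : x0 ∈ Mult m) (h2 : y0 ∈ Mult m)
    (hx : Tendsto x l (@nhds _ (js m) x0)) (hy : Tendsto y l (@nhds _ (js m) y0))
    (bx : ∀ᶠ i in l, ‖x i‖ ≤ r) (bY : ∀ᶠ i in l, ‖y i‖ ≤ r) :
    Tendsto (fun i => ar m (x i) (y i)) l (@nhds _ (js m) (ar m x0 y0)) := by
  refine h.red fun a b => ?_
  have t := tend_iff.1 hx
  have t' := tend_iff.1 hy
  have c : ∀ z : Bi A, Tendsto (fun _ : ι => z) l (𝓝 z) := fun _ => tendsto_const_nhds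
  have k1 : ∀ a, Tendsto (fun i => ar m (ar m (J a) (x i)) (y i)) l
      (𝓝 (ar m (ar m (J a) x0) y0)) := by
    intro a
    obtain ⟨d, hd⟩ := h1 a
    exact tB (arL m) (t a) bY (by rw [hd]; exact t' d)
  have k2 : Tendsto (fun i => ar m (x i) (ar m (J (m a b)) (y i))) l
      (𝓝 (ar m x0 (ar m (J (m a b)) y0))) := by
    obtain ⟨d, hd⟩ := h2 (m a b)
    refine tB (arL m).flip (t' _) bx ?_
    rw [hd, h.ar_comm]
    simpa only [ContinuousLinearMap.flip_apply, ← arL_eq, h.ar_comm] using t d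
  simp only [h.key a b]
  exact ((((tA (c _) (k1 _)).add (tA (c _) (k1 _))).add k2).sub
    (tA (t _) (t' _))).sub (tA (t _) (t' _))

end Pool.Agent.H.MP_6503f0_an
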