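import Mathlib

set_option autoImplicit false
set_option maxSynthPendingDepth 3

namespace Pool.Agent.H.MP_6503f0_an

open ContinuousLinearMap

variable {A : Type} [NormedAddCommGroup A] [NormedSpace ℂ A]

/-- `(A, p, s)` is a JB*-algebra with Jordan product `p` and involution `s`
(bilinearity of `p` and completeness of `A` are assumed separately). -/
structure IsJB (p : A → A → A) (s : A → A) : Prop where
  comm : ∀ a b, p a b = p b a
  jordan : ∀ a b, p (p a b) (p a a) = p a (p b (p a a))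
  norm_le : ∀ a b, ‖p a b‖ ≤ ‖a‖ * ‖b‖
  s_add : ∀ a b, s (a + b) = s a + s b
  s_smul : ∀ (c : ℂ) (a : A), s (c • a) = starRingEnd ℂ c • s a
  s_s : ∀ a, s (s a) = a
  s_mul : ∀ a b, s (p a b) = p (s a) (s b)
  cstar : ∀ a, ‖(2 : ℂ) • p (p a (s a)) a - p (p a a) (s a)‖ = ‖a‖ ^ 3

/-- The product given by the bounded bilinear map `m`. -/
noncomputable def pr (m : A →L[ℂ] A →L[ℂ] A) (a b : A) : A := m a b

/-- The bidual. -/
abbrev Bi (A : Type) [NormedAddCommGroup A] [NormedSpace ℂ A] : Type :=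
  StrongDual ℂ (StrongDual ℂ A)

/-- Evaluation of a functional. -/
noncomputable def ev (f : StrongDual ℂ A) (a : A) : ℂ := f a

/-- `L m f a` is the functional `b ↦ f (m a b)`. -/
noncomputable def L (m : A →L[ℂ] A →L[ℂ] A) (f : StrongDual ℂ A) (a : A) : StrongDual ℂ A :=
  f.comp (m a)

/-- The continuous functional with underlying function `g`. -/
noncomputable def mk (g : A → ℂ) (h : IsBoundedLinearMap ℂ g) : StrongDual ℂ A :=
  h.toContinuousLinearMap

theorem Q_bd (m : A →L[ℂ] A →L[ℂ] A) (y : Bi A) (f : StrongDual ℂ A) :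
    IsBoundedLinearMap ℂ fun a => ev y (L m f a) :=
  (y.comp ((compL ℂ A A ℂ f).comp m)).isBoundedLinearMap

/-- `Q m y f` is the functional `a ↦ y (b ↦ f (m a b))`. -/
noncomputable def Q (m : A →L[ℂ] A →L[ℂ] A) (y : Bi A) (f : StrongDual ℂ A) : StrongDual ℂ A :=
  mk (fun a => ev y (L m f a)) (Q_bd m y f)

theorem ar_bd (m : A →L[ℂ] A →L[ℂ] A) (x y : Bi A) :
    IsBoundedLinearMap ℂ fun f => ev x (Q m y f) :=
  (x.comp ((compL ℂ A (StrongDual ℂ A) ℂ y).comp
    (((compL ℂ A (A →L[ℂ] A) (StrongDual ℂ A)).flip m).comp (compL ℂ A A ℂ)))).isBoundedLinearMap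

/-- The Arens extension of the product to the bidual: `f ↦ x (a ↦ y (b ↦ f (m a b)))`. -/
noncomputable def ar (m : A →L[ℂ] A →L[ℂ] A) (x y : Bi A) : Bi A :=
  mk (fun f => ev x (Q m y f)) (ar_bd m x y)

theorem J_bd (a : A) : IsBoundedLinearMap ℂ fun f => ev f a :=
  (NormedSpace.inclusionInDoubleDual ℂ A a).isBoundedLinearMap

/-- The canonical embedding into the bidual: `f ↦ f a`. -/
noncomputable def J (a : A) : Bi A := mk (fun f => ev f a) (J_bd a)

/-- The multiplier algebra. -/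
def Mult (m : A →L[ℂ] A →L[ℂ] A) : Set (Bi A) := {x | ∀ a : A, ∃ b : A, ar m (J a) x = J b}

/-- The J-strict topology: the coarsest topology making all maps `x ↦ a ∘ x` norm continuous,
i.e. the topology of the seminorms `x ↦ ‖a ∘ x‖`. -/
@[reducible] noncomputable def js (m : A →L[ℂ] A →L[ℂ] A) : TopologicalSpace (Bi A) :=
  ⨅ a : A, TopologicalSpace.induced (fun x => ar m (J a) x) inferInstance

end Pool.Agent.H.MP_6503f0_an
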